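import Pool.Agent.H961BE.Dense

/-!
Progressions of runs of consecutive primes with almost prime companions.
-/

set_option autoImplicit false

open Finset Filter Topology Polynomial

namespace Pool.Agent.H961BE

open Pool.Agent.TH882.HX (Adm)
open Pool.Agent.Y677.RSZ (rt V Sys)

lemma Sys_mono {g g' : ℕ} {F : ℤ → ℤ} (h : Sys g F) (hg : g ≤ g') : Sys g' F := by
  obtain ⟨h1, h2, Δ, hΔ⟩ := h
  refine ⟨h1, fun p hp => ⟨(h2 p hp).1.trans hg, (h2 p hp).2⟩, Δ, fun h hh => ?_⟩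
  obtain ⟨h3, h4, h5⟩ := hΔ h (hg.trans hh)
  refine ⟨h3, ?_, h5⟩
  rcases Nat.eq_zero_or_pos h with h0 | h0
  · subst h0
    have hg0 : g = 0 := by omega
    subst hg0
    have hg'0 : g' = 0 := by omega
    subst hg'0
    exact h4
  · exact h4.trans (Nat.pow_le_pow_right h0 hg)

/-- the number of primes in `(n, n + C]` in terms of the counting function -/
lemma count_run' (n C : ℕ) :
    Nat.count Nat.Prime (n + 1) + ((Icc 1 C).filter (fun w => (n + w).Prime)).card =
      Nat.count Nat.Prime (n + 1 + C) := by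
  classical
  rw [Nat.count_add Nat.Prime (n + 1) C]
  congr 1
  rw [Nat.count_eq_card_filter_range]
  apply card_bij (fun w _ => w - 1)
  · intro w hw
    rw [mem_filter, mem_Icc] at hw
    rw [mem_filter, mem_range]
    refine ⟨by omega, ?_⟩
    have : n + 1 + (w - 1) = n + w := by omega
    rw [this]
    exact hw.2
  · intro w hw w' hw' h
    rw [mem_filter, mem_Icc] at hw hw'
    omega
  · intro w hw
    rw [mem_filter, mem_range] at hw
    refine ⟨w + 1, ?_, by omega⟩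
    rw [mem_filter, mem_Icc]
    refine ⟨by omega, ?_⟩
    have : n + (w + 1) = n + 1 + w := by omega
    rw [this]
    exact hw.2

/-- the primes with index between the number of primes up to `n` and up to `n + C` -/
lemma nth_between' (n C i : ℕ) (h1 : Nat.count Nat.Prime (n + 1) ≤ i)
    (h2 : i < Nat.count Nat.Prime (n + 1 + C)) :
    ∃ w ∈ Icc 1 C, Nat.nth Nat.Prime i = n + w := by
  have e1 : Nat.nth Nat.Prime i < n + 1 + C := Nat.nth_lt_of_lt_count h2
  have e2 : n + 1 ≤ Nat.nth Nat.Prime i := by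
    by_contra hcon
    push Not at hcon
    have e3 : Nat.nth Nat.Prime i + 1 ≤ n + 1 := by omega
    have e4 := Nat.count_monotone Nat.Prime e3
    rw [Nat.count_nth_succ_of_infinite Nat.infinite_setOfPred_prime] at e4
    omega
  refine ⟨Nat.nth Nat.Prime i - n, ?_, by omega⟩
  rw [mem_Icc]
  omega

/-- a run with many primes contains `r + 1` consecutive primes, the first of which has an index
divisible by `k` -/
lemma idx (k r C n : ℕ) (hk : 1 ≤ k)
    (hm : k + r ≤ ((Icc 1 C).filter (fun w => (n + w).Prime)).card) :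
    ∃ j : ℕ, 1 ≤ j ∧ ∀ i ≤ r, ∃ w ∈ Icc 1 C, Nat.nth Nat.Prime (j * k + i - 1) = n + w := by
  classical
  have h3 := count_run' n C
  obtain ⟨c, hc⟩ : ∃ c, c = Nat.count Nat.Prime (n + 1) := ⟨_, rfl⟩
  rw [← hc] at h3
  obtain ⟨j, hj⟩ : ∃ j, j = c / k + 1 := ⟨_, rfl⟩
  have e1 : c / k * k ≤ c := Nat.div_mul_le_self c k
  have e3 : j * k = c / k * k + k := by rw [hj]; ring
  have e2 : c < j * k := by
    have e5 := Nat.div_add_mod c k
    have e4 := Nat.mod_lt c hk
    rw [e3, mul_comm (c / k) k]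
    omega
  refine ⟨j, by rw [hj]; exact Nat.succ_pos _, ?_⟩
  intro i hi
  apply nth_between' n C
  · rw [← hc]
    omega
  · rw [← h3]
    have : j * k + i ≤ c + (k + r) := by omega
    omega

theorem prog (S : Finset ℤ) (hS : Adm S) (k r : ℕ) (hk : 1 ≤ k) :
    ∃ (R C : ℕ) (η : ℝ), 0 < η ∧ ∀ L : ℕ, ∃ B X₀ : ℕ, ∀ X : ℕ, X₀ ≤ X →
      ∃ (a d : ℕ) (w : ℕ → ℕ), X ≤ a ∧ a + (L - 1) * d < 2 * X ∧ 1 ≤ d ∧
        (d : ℝ) ≤ Real.log X ^ B ∧ (∀ i ≤ r, w i ∈ Icc 1 C) ∧ ∀ t < L, ∃ j : ℕ, 1 ≤ j ∧ ∀ i ≤ r,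
          Nat.nth Nat.Prime (j * k + i - 1) = a + t * d + w i ∧
          ∀ s ∈ S, 0 < ((a + t * d + w i : ℕ) : ℤ) + s ∧
            ArithmeticFunction.cardFactors (((a + t * d + w i : ℕ) : ℤ) + s).toNat ≤ R ∧
            ∀ l : ℕ, l.Prime → l ∣ (((a + t * d + w i : ℕ) : ℤ) + s).toNat →
              (X : ℝ) ^ η ≤ l := by
  classical
  obtain ⟨U, C, δ, κ, hδ, hδ1, hκ, hU, ⟨g, hg⟩, X1, h1⟩ := dense S hS (k + r) (by omega)
  obtain ⟨R, hR⟩ : ∃ R : ℕ, R = ⌊4 / δ⌋₊ := ⟨_, rfl⟩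
  refine ⟨R, C, δ / 2, by positivity, ?_⟩
  intro L
  obtain ⟨g', hg'⟩ : ∃ g', g' = max g (2 * U.card) := ⟨_, rfl⟩
  have hgS : Sys g' (Fn U) := Sys_mono hg (by omega)
  obtain ⟨M, hM⟩ : ∃ M : ℕ, M = (C + 1) ^ (r + 1) := ⟨_, rfl⟩
  have hM0 : 0 < M := by
    rw [hM]
    positivity
  have hMr : (0 : ℝ) < M := by exact_mod_cast hM0
  obtain ⟨B, H0, hE⟩ := Pool.Agent.Y677.RSZ.eng_all (max L 2) g' (δ / 4) (κ / M)
    (le_max_right _ _) (by positivity) (by positivity)
  refine ⟨B, max X1 (max H0 (C + 16)), ?_⟩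
  intro X hX
  have hX1 : X1 ≤ X := by omega
  have hXH : H0 ≤ X := by omega
  have hXC : C + 16 ≤ X := by omega
  obtain ⟨A, hA, hcard, hprop⟩ := h1 X hX1
  have hX0 : (1 : ℝ) < X := by
    have : 1 < X := by omega
    exact_mod_cast this
  -- the positions
  have hidx : ∀ N : ℕ, ∃ (j : ℕ) (w : ℕ → ℕ), N ∈ A → 1 ≤ j ∧ ∀ i ≤ r, w i ∈ Icc 1 C ∧
      Nat.nth Nat.Prime (j * k + i - 1) = N + w i := by
    intro N
    by_cases hN : N ∈ A
    · obtain ⟨j, hj, h2⟩ := idx k r C N hk (hprop N hN).2.1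
      have h3 : ∀ i, ∃ w, i ≤ r → w ∈ Icc 1 C ∧ Nat.nth Nat.Prime (j * k + i - 1) = N + w := by
        intro i
        by_cases hi : i ≤ r
        · obtain ⟨w, hw, hw2⟩ := h2 i hi
          exact ⟨w, fun _ => ⟨hw, hw2⟩⟩
        · exact ⟨0, fun h => absurd h hi⟩
      choose w hw using h3
      exact ⟨j, w, fun _ => ⟨hj, hw⟩⟩
    · exact ⟨0, fun _ => 0, fun h => absurd h hN⟩
  choose j w hjw using hidx
  -- the colour
  obtain ⟨col, hcol⟩ : ∃ col : ℕ → (Fin (r + 1) → Fin (C + 1)), col = fun N i =>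
      ⟨min (w N i) C, by omega⟩ := ⟨_, rfl⟩
  obtain ⟨y, -, hy⟩ := Finset.exists_le_card_fiber_of_nsmul_le_card_of_maps_to
    (s := A) (t := (univ : Finset (Fin (r + 1) → Fin (C + 1)))) (f := col)
    (b := (A.card : ℝ) / M) (fun _ _ => mem_univ _) univ_nonempty (by
      rw [card_univ, Fintype.card_fun, Fintype.card_fin, Fintype.card_fin, ← hM, nsmul_eq_mul]
      rw [mul_div_cancel₀ _ hMr.ne'])
  obtain ⟨A', hA'⟩ : ∃ A', A' = A.filter (fun N => col N = y) := ⟨_, rfl⟩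
  rw [← hA'] at hy
  have hA'A : ∀ N ∈ A', N ∈ A := fun N hN => by
    rw [hA'] at hN
    exact (mem_filter.1 hN).1
  have hwy : ∀ N ∈ A', ∀ i, ∀ hi : i ≤ r, w N i = (y ⟨i, by omega⟩ : ℕ) := by
    intro N hN i hi
    have e1 := ((hjw N (hA'A N hN)).2 i hi).1
    rw [hA', mem_filter] at hN
    have e2 := congrFun hN.2 ⟨i, by omega⟩
    rw [hcol] at e2
    have e3 := congrArg Fin.val e2
    simp only at e3
    rw [mem_Icc] at e1
    omega
  -- the progression
  obtain ⟨a, d, hd1, hd2, hap⟩ := hE (Fn U) (X - 1) X A' hgS hXH (by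
      intro n hn
      rw [mem_Ioc] at hn
      have e0 : Fn U (n : ℤ) = ((∏ u ∈ U, (n + u) : ℕ) : ℤ) := by
        unfold Fn
        rw [FU_eval]
        push_cast
        rfl
      have e1 : 0 < ∏ u ∈ U, (n + u) := prod_pos fun u hu => by
        have := (hU u hu).1
        omega
      have e2 : ∏ u ∈ U, (n + u) ≤ X ^ g' := by
        calc ∏ u ∈ U, (n + u) ≤ ∏ _u ∈ U, X ^ 2 := by
              apply Finset.prod_le_prod (fun _ _ => Nat.zero_le _)
              intro u hu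
              have := (hU u hu).2
              have e3 : n + u ≤ 3 * X := by omega
              nlinarith
          _ = X ^ (2 * U.card) := by rw [prod_const, ← pow_mul]
          _ ≤ X ^ g' := Nat.pow_le_pow_right (by omega) (by omega)
      rw [e0]
      constructor
      · exact_mod_cast e1.ne'
      · rw [abs_of_nonneg (by positivity)]
        exact_mod_cast e2) (by
      intro n hn
      have e1 := mem_Ico.1 (hA (hA'A n hn))
      rw [mem_Ioc]
      omega) (by
      intro n hn l hl hle hd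
      unfold Fn at hd
      rw [dvd_FU_nat hl] at hd
      obtain ⟨u, hu, hdu⟩ := hd
      have e1 := (hprop n (hA'A n hn)).1 u hu l hl hdu
      have e2 : (X : ℝ) ^ (δ / 4) < (X : ℝ) ^ (δ / 2) :=
        Real.rpow_lt_rpow_of_exponent_lt hX0 (by linarith)
      linarith) (by
      have e1 : κ / M * (X * V (Fn U) 1 X) = κ * (X * V (Fn U) 1 X) / M := by ring
      rw [e1]
      exact (div_le_div_of_nonneg_right hcard hMr.le).trans hy)
  refine ⟨a, d, fun i => if hi : i ≤ r then (y ⟨i, by omega⟩ : ℕ) else 1, ?_, ?_, hd1, hd2, ?_, ?_⟩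
  · have e1 := mem_Ico.1 (hA (hA'A _ (hap 0 (by omega))))
    omega
  · have e1 := mem_Ico.1 (hA (hA'A _ (hap (L - 1) (by omega))))
    exact e1.2
  · intro i hi
    simp only [hi, dite_true]
    have e1 := hap 0 (by omega)
    rw [← hwy _ e1 i hi]
    exact ((hjw _ (hA'A _ e1)).2 i hi).1
  · intro t ht
    have hN := hap t (by omega)
    obtain ⟨N, hNd⟩ : ∃ N, N = a + t * d := ⟨_, rfl⟩
    rw [← hNd] at hN ⊢
    have hNA := hA'A N hN
    have hNX := mem_Ico.1 (hA hNA)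
    obtain ⟨hj1, hj2⟩ := hjw N hNA
    refine ⟨j N, hj1, ?_⟩
    intro i hi
    simp only [hi, dite_true]
    rw [← hwy N hN i hi]
    obtain ⟨hw1, hw2⟩ := hj2 i hi
    refine ⟨hw2, ?_⟩
    intro s hs
    have hp : (N + w N i).Prime := by
      rw [← hw2]
      exact Nat.prime_nth_prime _
    obtain ⟨hpos, hmem⟩ := (hprop N hNA).2.2 (w N i) hw1 hp s hs
    obtain ⟨u, hu⟩ : ∃ u, u = ((w N i : ℤ) + s).toNat := ⟨_, rfl⟩
    rw [← hu] at hmem
    have hcast : (((N + w N i : ℕ) : ℤ) + s).toNat = N + u := by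
      rw [hu]
      push_cast
      omega
    have hrough := (hprop N hNA).1 u hmem
    rw [hcast]
    refine ⟨by push_cast; omega, ?_, hrough⟩
    have hu1 := hU u hmem
    have h2 := Pool.Agent.TH882.AG.pow_cardFactors_le ((X : ℝ) ^ (δ / 2)) (by positivity) (N + u)
      (by omega) hrough
    have h3 : ((N + u : ℕ) : ℝ) ≤ (X : ℝ) ^ (2 : ℝ) := by
      have e1 : ((N + u : ℕ) : ℝ) ≤ 3 * X := by
        have : N + u ≤ 3 * X := by omega
        exact_mod_cast this
      rw [show (2 : ℝ) = ((2 : ℕ) : ℝ) by norm_num, Real.rpow_natCast]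
      have : (16 : ℝ) ≤ X := by
        have : 16 ≤ X := by omega
        exact_mod_cast this
      nlinarith
    have h4 := h2.trans h3
    rw [← Real.rpow_natCast, ← Real.rpow_mul (by linarith)] at h4
    have h5 := (Real.rpow_le_rpow_left_iff hX0).1 h4
    rw [hR]
    apply Nat.le_floor
    rw [le_div_iff₀ hδ]
    linarith

end Pool.Agent.H961BE
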