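import Pool.Agent.TH882.X3
import Pool.Agent.Y677.RSZ.Top

/-!
The residue classes modulo the product of the small primes, and the sieve product.
-/

set_option autoImplicit false

open Finset Filter Topology Polynomial

namespace Pool.Agent.H961BE

open Pool.Agent.H361R2.PP
open Pool.Agent.TH423.SH (PS)
open Pool.Agent.Y677.RSZ (rt V Sys)

/-- the product of the shifts -/
noncomputable def FU (U : Finset ℕ) : ℤ[X] := ∏ u ∈ U, (X + C (u : ℤ))

lemma FU_eval (U : Finset ℕ) (n : ℤ) : (FU U).eval n = ∏ u ∈ U, (n + u) := by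
  unfold FU
  rw [eval_prod]
  apply prod_congr rfl
  intro u _
  simp

lemma dvd_FU {U : Finset ℕ} {l : ℕ} (hl : l.Prime) (n : ℤ) :
    (l : ℤ) ∣ (FU U).eval n ↔ ∃ u ∈ U, (l : ℤ) ∣ n + u := by
  rw [FU_eval]
  exact (Nat.prime_iff_prime_int.1 hl).dvd_finsetProd_iff _

lemma dvd_FU_nat {U : Finset ℕ} {l : ℕ} (hl : l.Prime) (n : ℕ) :
    (l : ℤ) ∣ (FU U).eval (n : ℤ) ↔ ∃ u ∈ U, l ∣ n + u := by
  rw [dvd_FU hl]
  constructor
  · rintro ⟨u, hu, h⟩
    exact ⟨u, hu, by exact_mod_cast h⟩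
  · rintro ⟨u, hu, h⟩
    exact ⟨u, hu, by exact_mod_cast h⟩

/-- the function -/
noncomputable def Fn (U : Finset ℕ) : ℤ → ℤ := fun n => (FU U).eval n

lemma rt_ge (U : Finset ℕ) (p : ℕ) (hp : p.Prime) (hU : ∀ u ∈ U, 1 ≤ u ∧ u < p) :
    U.card ≤ rt (Fn U) p := by
  unfold rt
  apply card_le_card_of_injOn (fun u => p - u)
  · intro u hu
    obtain ⟨h1, h2⟩ := hU u hu
    simp only [coe_filter, mem_range, Set.mem_ofPred_eq]
    refine ⟨by omega, ?_⟩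
    unfold Fn
    rw [dvd_FU_nat hp]
    exact ⟨u, hu, by
      have : p - u + u = p := by omega
      rw [this]⟩
  · intro u hu v hv h
    obtain ⟨h1, h2⟩ := hU u hu
    obtain ⟨h3, h4⟩ := hU v hv
    simp only at h
    omega

lemma classes (U : Finset ℕ) (Qs P : Finset ℕ) (hP : ∀ p ∈ P, p.Prime) (hQP : Qs ⊆ P) (b0 : ℕ)
    (hb0 : ∀ q ∈ Qs, ∀ u ∈ U, ¬ q ∣ b0 + u)
    (hper : ∀ p : ℕ, p.Prime → ∀ n : ℤ, (p : ℤ) ∣ Fn U (n + p) - Fn U n)
    (hrt : ∀ p : ℕ, p.Prime → rt (Fn U) p < p) :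
    ∏ p ∈ P, ((p : ℝ) - rt (Fn U) p) ≤ (∏ q ∈ Qs, (q : ℝ)) *
      (((range (∏ p ∈ P, p)).filter (fun b => (∀ p ∈ P, ∀ u ∈ U, ¬ p ∣ b + u) ∧
        ∀ q ∈ Qs, b ≡ b0 [MOD q])).card : ℝ) := by
  classical
  obtain ⟨Q, hQ⟩ : ∃ Q, Q = ∏ q ∈ Qs, q := ⟨_, rfl⟩
  obtain ⟨W, hW⟩ : ∃ W, W = ∏ p ∈ P \ Qs, p := ⟨_, rfl⟩
  have hWQ : ∏ p ∈ P, p = W * Q := by rw [hW, hQ, prod_sdiff hQP]
  have hP' : ∀ p ∈ P \ Qs, p.Prime := fun p hp => hP p (mem_sdiff.1 hp).1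
  have hQp : ∀ q ∈ Qs, q.Prime := fun q hq => hP q (hQP hq)
  have hcop : Nat.Coprime W Q := by
    rw [hW, hQ]
    apply Nat.Coprime.prod_left
    intro p hp
    apply Nat.Coprime.prod_right
    intro q hq
    rw [Nat.coprime_primes (hP' p hp) (hQp q hq)]
    rintro rfl
    exact (mem_sdiff.1 hp).2 hq
  have hW0 : W ≠ 0 := by
    rw [hW]
    exact prod_ne_zero_iff.2 fun p hp => (hP' p hp).ne_zero
  have hQ0 : Q ≠ 0 := by
    rw [hQ]
    exact prod_ne_zero_iff.2 fun p hp => (hQp p hp).ne_zero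
  have hpf : W.primeFactors = P \ Qs := by
    rw [hW]
    exact Nat.primeFactors_prod hP'
  have hsq : Squarefree W := by
    rw [hW]
    apply Finset.squarefree_prod_of_pairwise_isCoprime
    · intro p hp q hq hpq
      exact Nat.coprime_iff_isRelPrime.1 ((Nat.coprime_primes (hP' p hp) (hP' q hq)).2 hpq)
    · intro p hp
      exact (hP' p hp).squarefree
  have hpig := Pool.Agent.Y677.RSZ.pig (Fn U) hper W hsq
  rw [hpf] at hpig
  obtain ⟨A, hA⟩ : ∃ A, A = (range W).filter (fun b : ℕ => ∀ p ∈ P \ Qs, ¬ (p : ℤ) ∣ Fn U b) :=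
    ⟨_, rfl⟩
  rw [← hA] at hpig
  obtain ⟨B, hB⟩ : ∃ B, B = (range (∏ p ∈ P, p)).filter (fun b => (∀ p ∈ P, ∀ u ∈ U, ¬ p ∣ b + u) ∧
        ∀ q ∈ Qs, b ≡ b0 [MOD q]) := ⟨_, rfl⟩
  rw [← hB]
  have hAB : A.card ≤ B.card := by
    apply card_le_card_of_injOn (fun b => (Nat.chineseRemainder hcop b b0 : ℕ))
    · intro b hb
      rw [hA, mem_coe, mem_filter] at hb
      have h1 := (Nat.chineseRemainder hcop b b0).2
      have h2 := Nat.chineseRemainder_lt_mul hcop b b0 hW0 hQ0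
      rw [hB, mem_coe, mem_filter, mem_range, hWQ]
      refine ⟨h2, ?_, ?_⟩
      · intro p hp u hu hd
        by_cases hpQ : p ∈ Qs
        · have h3 : p ∣ Q := by
            rw [hQ]
            exact dvd_prod_of_mem _ hpQ
          have h4 := h1.2.of_dvd h3
          exact hb0 p hpQ u hu (((h4.add_right u).dvd_iff dvd_rfl).1 hd)
        · have hpW : p ∈ P \ Qs := mem_sdiff.2 ⟨hp, hpQ⟩
          have h3 : p ∣ W := by
            rw [hW]
            exact dvd_prod_of_mem _ hpW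
          have h4 := h1.1.of_dvd h3
          apply hb.2 p hpW
          unfold Fn
          rw [dvd_FU_nat (hP p hp)]
          exact ⟨u, hu, ((h4.add_right u).dvd_iff dvd_rfl).1 hd⟩
      · intro q hq
        have h3 : q ∣ Q := by
          rw [hQ]
          exact dvd_prod_of_mem _ hq
        exact h1.2.of_dvd h3
    · intro b hb b' hb' he
      rw [hA, mem_coe, mem_filter, mem_range] at hb hb'
      simp only at he
      have h1 := (Nat.chineseRemainder hcop b b0).2.1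
      have h2 := (Nat.chineseRemainder hcop b' b0).2.1
      rw [he] at h1
      have h3 : b ≡ b' [MOD W] := h1.symm.trans h2
      have h4 : b % W = b' % W := h3
      rwa [Nat.mod_eq_of_lt hb.1, Nat.mod_eq_of_lt hb'.1] at h4
  have hAr : (A.card : ℝ) = ∏ p ∈ P \ Qs, ((p : ℝ) - rt (Fn U) p) := by
    rw [hpig]
    push_cast
    apply prod_congr rfl
    intro p hp
    rw [Nat.cast_sub (hrt p (hP' p hp)).le]
  rw [← prod_sdiff hQP, ← hAr, mul_comm]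
  apply mul_le_mul
  · apply Finset.prod_le_prod
    · intro q hq
      have := hrt q (hQp q hq)
      have h2 : (rt (Fn U) q : ℝ) ≤ q := by exact_mod_cast this.le
      linarith
    · intro q hq
      have : (0 : ℝ) ≤ rt (Fn U) q := Nat.cast_nonneg _
      linarith
  · exact_mod_cast hAB
  · exact Nat.cast_nonneg _
  · exact prod_nonneg fun q _ => Nat.cast_nonneg _

lemma V_le (U : Finset ℕ) (δ : ℝ) (X A0 : ℕ) (hU : ∀ u ∈ U, 1 ≤ u ∧ u ≤ A0) (hA : A0 ≤ HH X)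
    (h1 : HH X ≤ X) (h2 : 2 ^ 2 ^ JJ δ X ≤ X) (hrt : ∀ p : ℕ, p.Prime → rt (Fn U) p < p) :
    V (Fn U) 1 X ≤ (∏ p ∈ PS 1 (HH X), (1 - (rt (Fn U) p : ℝ) / p)) * VV δ X ^ U.card := by
  classical
  unfold V VV
  have hf0 : ∀ p : ℕ, p.Prime → 0 ≤ 1 - (rt (Fn U) p : ℝ) / p := by
    intro p hp
    have h3 := hrt p hp
    have h4 : (0 : ℝ) < p := by exact_mod_cast hp.pos
    have h5 : (rt (Fn U) p : ℝ) ≤ p := by exact_mod_cast h3.le
    have h6 : (rt (Fn U) p : ℝ) / p ≤ 1 := (div_le_one h4).2 h5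
    linarith
  have hf1 : ∀ p : ℕ, 1 - (rt (Fn U) p : ℝ) / p ≤ 1 := by
    intro p
    have : (0 : ℝ) ≤ (rt (Fn U) p : ℝ) / p := by positivity
    linarith
  have hdis : Disjoint (PS 1 (HH X)) (P1 (HH X) (JJ δ X)) := by
    rw [disjoint_left]
    intro p hp hp'
    unfold PS at hp
    unfold P1 at hp'
    rw [mem_filter, mem_Icc] at hp
    rw [mem_filter] at hp'
    omega
  have hsub : PS 1 (HH X) ∪ P1 (HH X) (JJ δ X) ⊆ PS 1 X := by
    intro p hp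
    rw [mem_union] at hp
    unfold PS
    rw [mem_filter, mem_Icc]
    rcases hp with hp | hp
    · unfold PS at hp
      rw [mem_filter, mem_Icc] at hp
      exact ⟨⟨hp.1.1, by omega⟩, hp.2⟩
    · unfold P1 at hp
      rw [mem_filter, mem_range] at hp
      refine ⟨⟨hp.2.1.one_le, by omega⟩, hp.2.1, ?_⟩
      intro h
      exact hp.2.1.one_lt.ne' (Nat.dvd_one.1 h)
  rw [← prod_sdiff hsub, prod_union hdis]
  have hPSp : ∀ p ∈ PS 1 X, p.Prime := by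
    intro p hp
    unfold PS at hp
    exact (mem_filter.1 hp).2.1
  have e1 : ∏ p ∈ PS 1 X \ (PS 1 (HH X) ∪ P1 (HH X) (JJ δ X)), (1 - (rt (Fn U) p : ℝ) / p) ≤ 1 :=
    prod_le_one (fun p hp => hf0 p (hPSp p (mem_sdiff.1 hp).1)) (fun p _ => hf1 p)
  have e2 : ∏ p ∈ P1 (HH X) (JJ δ X), (1 - (rt (Fn U) p : ℝ) / p) ≤
      (∏ p ∈ P1 (HH X) (JJ δ X), (1 - 1 / (p : ℝ))) ^ U.card := by
    rw [← prod_pow]
    apply Finset.prod_le_prod
    · intro p hp
      exact hf0 p (hPSp p (hsub (mem_union_right _ hp)))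
    · intro p hp
      unfold P1 at hp
      rw [mem_filter, mem_range] at hp
      have hp0 : (0 : ℝ) < p := by exact_mod_cast hp.2.1.pos
      have h3 := rt_ge U p hp.2.1 (fun u hu => ⟨(hU u hu).1, by have := (hU u hu).2; omega⟩)
      have h4 : (U.card : ℝ) ≤ rt (Fn U) p := by exact_mod_cast h3
      have h5 : (U.card : ℝ) / p ≤ (rt (Fn U) p : ℝ) / p := div_le_div_of_nonneg_right h4 hp0.le
      have h6 : (1 : ℝ) / p ≤ 1 := by
        rw [div_le_one hp0]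
        exact_mod_cast hp.2.1.one_le
      have h7 := one_add_mul_le_pow (show (-2 : ℝ) ≤ -(1 / (p : ℝ)) by linarith) U.card
      have h8 : 1 + (U.card : ℝ) * -(1 / (p : ℝ)) = 1 - (U.card : ℝ) / p := by ring
      rw [h8] at h7
      have h9 : (1 + -(1 / (p : ℝ))) = 1 - 1 / (p : ℝ) := by ring
      rw [h9] at h7
      linarith
  have e3 : 0 ≤ ∏ p ∈ PS 1 (HH X), (1 - (rt (Fn U) p : ℝ) / p) :=
    prod_nonneg fun p hp => hf0 p (hPSp p (hsub (mem_union_left _ hp)))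
  have e4 : 0 ≤ ∏ p ∈ P1 (HH X) (JJ δ X), (1 - (rt (Fn U) p : ℝ) / p) :=
    prod_nonneg fun p hp => hf0 p (hPSp p (hsub (mem_union_right _ hp)))
  calc (∏ p ∈ PS 1 X \ (PS 1 (HH X) ∪ P1 (HH X) (JJ δ X)), (1 - (rt (Fn U) p : ℝ) / p)) *
        ((∏ p ∈ PS 1 (HH X), (1 - (rt (Fn U) p : ℝ) / p)) *
          ∏ p ∈ P1 (HH X) (JJ δ X), (1 - (rt (Fn U) p : ℝ) / p))
      ≤ 1 * ((∏ p ∈ PS 1 (HH X), (1 - (rt (Fn U) p : ℝ) / p)) *
          ∏ p ∈ P1 (HH X) (JJ δ X), (1 - (rt (Fn U) p : ℝ) / p)) :=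
        mul_le_mul_of_nonneg_right e1 (mul_nonneg e3 e4)
    _ = (∏ p ∈ PS 1 (HH X), (1 - (rt (Fn U) p : ℝ) / p)) *
          ∏ p ∈ P1 (HH X) (JJ δ X), (1 - (rt (Fn U) p : ℝ) / p) := one_mul _
    _ ≤ _ := mul_le_mul_of_nonneg_left e2 e3

end Pool.Agent.H961BE
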