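import Pool.Agent.H961BE.Cls

/-!
Runs of consecutive primes with almost prime companions: a positive proportion of the sifted set.
-/

set_option autoImplicit false

open Finset Filter Topology Polynomial

namespace Pool.Agent.H961BE

open Pool.Agent.H361R2.PP
open Pool.Agent.W70.HR
open Pool.Agent.TH882.UB
open Pool.Agent.TH882.HE
open Pool.Agent.TH882.HX
open Pool.Agent.TH882.PG (Hq Uq Hq_mem Hqa_mem Hq_inj Uq_card Uq_pos Hqa_pos Hq_ge)
open Pool.Agent.TH882.RQ (LocQ exists_classQ)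
open Pool.Agent.TH423.SH (PS)
open Pool.Agent.Y677.RSZ (rt V Sys)

lemma mem_PS1 {R p : ℕ} : p ∈ PS 1 R ↔ p.Prime ∧ p ≤ R := by
  unfold PS
  rw [mem_filter, mem_Icc]
  constructor
  · rintro ⟨h1, h2⟩
    exact ⟨h2.1, h1.2⟩
  · rintro ⟨h1, h2⟩
    exact ⟨⟨h1.one_le, h2⟩, h1, fun h => h1.one_lt.ne' (Nat.dvd_one.1 h)⟩

lemma prod_PS1 (X : ℕ) : ∏ p ∈ PS 1 (HH X), p = Wm X := by
  unfold Wm primorial
  apply prod_congr _ (fun _ _ => rfl)
  ext p
  rw [mem_PS1, mem_filter, mem_range]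
  constructor
  · rintro ⟨h1, h2⟩
    exact ⟨by omega, h1⟩
  · rintro ⟨h1, h2⟩
    exact ⟨h2, by omega⟩

lemma cop_of (X b u : ℕ) (h : ∀ p ∈ PS 1 (HH X), ¬ p ∣ b + u) : (b + u).Coprime (Wm X) := by
  rw [Nat.coprime_iff_gcd_eq_one]
  by_contra hcon
  obtain ⟨l, hl, hlg⟩ := Nat.exists_prime_and_dvd hcon
  have h1 : l ∣ b + u := hlg.trans (Nat.gcd_dvd_left _ _)
  have h2 : l ∣ Wm X := hlg.trans (Nat.gcd_dvd_right _ _)
  have h3 : l ≤ HH X := by
    unfold Wm at h2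
    exact hl.dvd_primorial_iff.1 h2
  exact h l (mem_PS1.2 ⟨hl, h3⟩) h1

theorem dense (S : Finset ℤ) (hS : Adm S) (m : ℕ) (hm : 1 ≤ m) :
    ∃ (U : Finset ℕ) (C : ℕ) (δ κ : ℝ), 0 < δ ∧ δ ≤ 1 ∧ 0 < κ ∧ (∀ u ∈ U, 1 ≤ u ∧ u ≤ C) ∧
      (∃ g, Sys g (Fn U)) ∧ ∃ X₀ : ℕ, ∀ X : ℕ, X₀ ≤ X → ∃ A ⊆ Ico X (2 * X),
        κ * (X * V (Fn U) 1 X) ≤ A.card ∧
        ∀ n ∈ A, (∀ u ∈ U, ∀ l : ℕ, l.Prime → l ∣ n + u → (X : ℝ) ^ (δ / 2) ≤ l) ∧
          m ≤ ((Icc 1 C).filter (fun w => (n + w).Prime)).card ∧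
          ∀ w ∈ Icc 1 C, (n + w).Prime → ∀ a ∈ S, 0 < (w : ℤ) + a ∧ ((w : ℤ) + a).toNat ∈ U := by
  classical
  obtain ⟨T, hTd⟩ : ∃ T, T = 4 * m := ⟨_, rfl⟩
  have hT1 : 1 ≤ T := by omega
  obtain ⟨K, hK, hmte⟩ := mtx T hT1
  obtain ⟨δ, c, hδ, hδ8, hc, X1, h1⟩ := hmte 1 (T * K * S.card) one_pos
  have hδ1 : δ ≤ 1 := by linarith
  obtain ⟨U, hU⟩ : ∃ U, U = Uq S T K 0 := ⟨_, rfl⟩
  obtain ⟨A0, hA0⟩ : ∃ A0, A0 = U.sup id := ⟨_, rfl⟩
  have hUA : ∀ u ∈ U, u ≤ A0 := fun u hu => by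
    rw [hA0]
    exact Finset.le_sup (f := id) hu
  have hU1 : ∀ u ∈ U, 1 ≤ u := fun u hu => by
    rw [hU] at hu
    exact Uq_pos S T K 0 u hu
  have hloc := adm_Uq S hS T K
  rw [← hU] at hloc
  obtain ⟨Vs, hVs⟩ : ∃ Vs, Vs = Icc 1 A0 \ U := ⟨_, rfl⟩
  obtain ⟨Z, hZ⟩ : ∃ Z, Z = Vs.sup (pvs A0) := ⟨_, rfl⟩
  have hpZ : ∀ v ∈ Vs, pvs A0 v ≤ Z := fun v hv => by
    rw [hZ]
    exact Finset.le_sup (f := pvs A0) hv
  -- the system
  have hFU0 : FU U ≠ 0 := by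
    intro h0
    have h2 := FU_eval U 0
    rw [h0, eval_zero] at h2
    have h3 : (∏ u ∈ U, ((0 : ℤ) + u)) ≠ 0 := by
      apply prod_ne_zero_iff.2
      intro u hu
      have := hU1 u hu
      omega
    exact h3 h2.symm
  obtain ⟨g, hg⟩ := Pool.Agent.Y677.RSZ.poly_all (FU U) hFU0 (fun p hp => by
    obtain ⟨x, hx, -⟩ := hloc p hp
    refine ⟨x, fun hd => ?_⟩
    rw [dvd_FU hp] at hd
    obtain ⟨u, hu, h2⟩ := hd
    exact hx u hu h2)
  have hgF : Sys g (Fn U) := hg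
  have hrt : ∀ p : ℕ, p.Prime → rt (Fn U) p < p := fun p hp => (hgF.root p hp).2
  -- the class of the cover
  have hclass : ∀ X : ℕ, ∃ b : ℕ, b < Wm X ∧ (∀ u ∈ U, (b + u).Coprime (Wm X)) ∧
      ∀ v ∈ Vs, pvs A0 v ≤ HH X → pvs A0 v ∣ b + v := by
    intro X
    obtain ⟨b, hb1, hb2, -, hb4⟩ := exists_classQ (fun j : Fin 0 => (0 : ℤ[X])) U Vs (pvs A0)
      (fun v _ => pvs_prime A0 v) ((pvs_inj A0).injOn) (by
        intro v hv u hu hd
        rw [hVs, Finset.mem_sdiff, mem_Icc] at hv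
        have e1 := hUA u hu
        have e2 := pvs_gt A0 v
        have e3 : (u : ℤ) - v ≠ 0 := by
          intro h0
          have : u = v := by omega
          exact hv.2 (this ▸ hu)
        have e4 := Int.le_of_dvd (abs_pos.2 e3) ((dvd_abs _ _).2 hd)
        have e5 : |(u : ℤ) - v| ≤ A0 := by
          rw [abs_le]
          constructor <;> omega
        omega) (fun _ => 0) X hloc (fun v _ j => j.elim0)
    exact ⟨b, hb1, hb2, hb4⟩
  obtain ⟨X4, hHH⟩ := eventually_atTop.1 (HH_tendsto.eventually_ge_atTop (Z + A0))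
  obtain ⟨b0, -, hb02, hb03⟩ := hclass X4
  obtain ⟨Qs, hQs⟩ : ∃ Qs, Qs = Vs.image (pvs A0) := ⟨_, rfl⟩
  have hQp : ∀ q ∈ Qs, q.Prime ∧ q ≤ Z := by
    intro q hq
    rw [hQs, mem_image] at hq
    obtain ⟨v, hv, rfl⟩ := hq
    exact ⟨pvs_prime A0 v, hpZ v hv⟩
  have hb0 : ∀ q ∈ Qs, ∀ u ∈ U, ¬ q ∣ b0 + u := by
    intro q hq u hu hd
    obtain ⟨h2, h3⟩ := hQp q hq
    have h4 : q ∣ Wm X4 := by
      unfold Wm
      exact h2.dvd_primorial_iff.2 (h3.trans (by have := hHH X4 le_rfl; omega))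
    have h5 := Nat.dvd_gcd hd h4
    have h6 := hb02 u hu
    rw [Nat.coprime_iff_gcd_eq_one] at h6
    rw [h6] at h5
    exact h2.one_lt.ne' (Nat.dvd_one.1 h5)
  obtain ⟨Qm, hQm⟩ : ∃ Qm : ℝ, Qm = ∏ q ∈ Qs, (q : ℝ) := ⟨_, rfl⟩
  have hQm0 : 0 < Qm := by
    rw [hQm]
    exact prod_pos fun q hq => by exact_mod_cast (hQp q hq).1.pos
  obtain ⟨X2, h2⟩ := JJ_size δ hδ hδ1 1 1 (by
    push_cast
    linarith)
  have hlogt : Tendsto (fun X : ℕ => Real.log (X : ℝ)) atTop atTop :=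
    Real.tendsto_log_atTop.comp tendsto_natCast_atTop_atTop
  obtain ⟨X5, h5⟩ := eventually_atTop.1 (hlogt.eventually_ge_atTop ((A0 : ℝ) + 1))
  refine ⟨U, A0, δ, c / Qm, hδ, hδ1, by positivity, fun u hu => ⟨hU1 u hu, hUA u hu⟩, ⟨g, hgF⟩,
    max (max X1 X2) (max (max X4 X5) (A0 + Z + 16)), ?_⟩
  intro X hX
  have hX1 : X1 ≤ X := by omega
  have hX2 : X2 ≤ X := by omega
  have hX4 : X4 ≤ X := by omega
  have hX5 : X5 ≤ X := by omega
  have hX16 : A0 + Z + 16 ≤ X := by omega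
  have hH4 := hHH X hX4
  have hll := h5 X hX5
  have hX0 : (0 : ℝ) < X := by
    have : 0 < X := by omega
    exact_mod_cast this
  obtain ⟨-, hJ1, hHJ, hsz⟩ := h2 X hX2
  have hJX : 2 ^ 2 ^ JJ δ X ≤ X := by
    rw [pow_one, Real.rpow_one] at hJ1
    exact_mod_cast hJ1
  have hHX : HH X ≤ X := by omega
  have hVle := V_le U δ X A0 (fun u hu => ⟨hU1 u hu, hUA u hu⟩) (by omega) hHX hJX hrt
  have hcls := classes U Qs (PS 1 (HH X)) (fun p hp => (mem_PS1.1 hp).1) (by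
    intro q hq
    obtain ⟨e1, e2⟩ := hQp q hq
    exact mem_PS1.2 ⟨e1, by omega⟩) b0 hb0 hgF.per hrt
  rw [← hQm, prod_PS1] at hcls
  obtain ⟨Bs, hBs⟩ : ∃ Bs, Bs = (range (Wm X)).filter (fun b => (∀ p ∈ PS 1 (HH X), ∀ u ∈ U,
    ¬ p ∣ b + u) ∧ ∀ q ∈ Qs, b ≡ b0 [MOD q]) := ⟨_, rfl⟩
  rw [← hBs] at hcls
  have hB1 : ∀ b ∈ Bs, b < Wm X ∧ (∀ u ∈ U, (b + u).Coprime (Wm X)) ∧
      ∀ v ∈ Vs, pvs A0 v ∣ b + v := by
    intro b hb
    rw [hBs, mem_filter, mem_range] at hb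
    obtain ⟨e1, e2, e3⟩ := hb
    refine ⟨e1, fun u hu => cop_of X b u (fun p hp => e2 p hp u hu), ?_⟩
    intro v hv
    have e4 : pvs A0 v ∈ Qs := by
      rw [hQs]
      exact mem_image_of_mem _ hv
    have e5 := e3 _ e4
    have e6 := hb03 v hv ((hpZ v hv).trans (by have := hHH X4 le_rfl; omega))
    exact ((e5.add_right v).dvd_iff dvd_rfl).2 e6
  have hHS2 : ∀ b ∈ Bs, c * Om δ X U.card ≤ ((HSx δ X b (Hq S T K 0) U).card : ℝ) := by
    intro b hb
    obtain ⟨e1, e2, -⟩ := hB1 b hb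
    obtain ⟨hV0, hHS⟩ := h1 X hX1 b e1
    refine hHS (Hq S T K 0) U (fun g i => by rw [hU]; exact Hq_mem S T K 0 g i)
      (Hq_inj S T K 0) ?_ (by rw [hU]; exact Uq_card S T K 0)
    intro u hu
    unfold Bw BB
    rw [mem_filter, mem_Icc]
    refine ⟨⟨hU1 u hu, ?_⟩, e2 u hu⟩
    apply Nat.le_floor
    have e3 : (u : ℝ) ≤ A0 := by exact_mod_cast hUA u hu
    rw [one_mul]
    linarith
  have hmemX : ∀ b, ∀ n ∈ HSx δ X b (Hq S T K 0) U, X ≤ n ∧ n < 2 * X ∧ n % Wm X = b := by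
    intro b n hn
    unfold HSx HS at hn
    rw [mem_filter, mem_filter, mem_SI] at hn
    exact hn.1.1
  refine ⟨Bs.biUnion (fun b => HSx δ X b (Hq S T K 0) U), ?_, ?_, ?_⟩
  · intro n hn
    rw [mem_biUnion] at hn
    obtain ⟨b, -, hb⟩ := hn
    obtain ⟨e1, e2, -⟩ := hmemX b n hb
    exact mem_Ico.2 ⟨e1, e2⟩
  · rw [card_biUnion (by
      intro b _ b' _ hbb
      show Disjoint _ _
      rw [disjoint_left]
      intro n hn hn'
      exact hbb ((hmemX b n hn).2.2.symm.trans (hmemX b' n hn').2.2))]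
    push_cast
    have e1 : (Bs.card : ℝ) * (c * Om δ X U.card) ≤
        ∑ b ∈ Bs, ((HSx δ X b (Hq S T K 0) U).card : ℝ) := by
      rw [← nsmul_eq_mul]
      exact card_nsmul_le_sum _ _ _ hHS2
    refine le_trans ?_ e1
    have hWpos : (0 : ℝ) < Wm X := by exact_mod_cast Pool.Agent.H361R2.PP.Wm_pos X
    have hWprod : (Wm X : ℝ) = ∏ p ∈ PS 1 (HH X), (p : ℝ) := by
      rw [← prod_PS1]
      push_cast
      rfl
    have e2 : ∏ p ∈ PS 1 (HH X), ((p : ℝ) - rt (Fn U) p) =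
        Wm X * ∏ p ∈ PS 1 (HH X), (1 - (rt (Fn U) p : ℝ) / p) := by
      rw [hWprod, ← prod_mul_distrib]
      apply prod_congr rfl
      intro p hp
      have : (p : ℝ) ≠ 0 := by exact_mod_cast (mem_PS1.1 hp).1.ne_zero
      field_simp
    rw [e2] at hcls
    obtain ⟨Pr0, hPr0⟩ : ∃ Pr0, Pr0 = ∏ p ∈ PS 1 (HH X), (1 - (rt (Fn U) p : ℝ) / p) := ⟨_, rfl⟩
    rw [← hPr0] at hcls hVle
    have hVV : 0 ≤ VV δ X ^ U.card := by
      apply pow_nonneg
      unfold VV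
      apply prod_nonneg
      intro p hp
      unfold P1 at hp
      rw [mem_filter] at hp
      have h9 : (1 : ℝ) / p ≤ 1 := by
        rw [div_le_one (by exact_mod_cast hp.2.1.pos)]
        exact_mod_cast hp.2.1.one_le
      linarith
    calc c / Qm * (X * V (Fn U) 1 X) ≤ c / Qm * (X * (Pr0 * VV δ X ^ U.card)) := by
          apply mul_le_mul_of_nonneg_left _ (by positivity)
          exact mul_le_mul_of_nonneg_left hVle hX0.le
      _ = (Wm X * Pr0) * (c / Qm * (X / Wm X) * VV δ X ^ U.card) := by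
          field_simp
      _ ≤ (Qm * Bs.card) * (c / Qm * (X / Wm X) * VV δ X ^ U.card) := by
          apply mul_le_mul_of_nonneg_right hcls
          positivity
      _ = (Bs.card : ℝ) * (c * Om δ X U.card) := by
          unfold Om
          field_simp
  · intro n hn
    rw [mem_biUnion] at hn
    obtain ⟨b, hb, hn⟩ := hn
    obtain ⟨hb1, hb2, hb4⟩ := hB1 b hb
    obtain ⟨hn1, hn2, hn3⟩ := hmemX b n hn
    unfold HSx HS at hn
    rw [mem_filter, mem_filter] at hn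
    obtain ⟨⟨hnS, hrg, hcnt⟩, honly⟩ := hn
    refine ⟨?_, ?_, ?_⟩
    · intro u hu l hl hd
      by_contra hcon
      push Not at hcon
      have e1 : (l : ℝ) < ((2 ^ 2 ^ JJ δ X : ℕ) : ℝ) := lt_of_lt_of_le hcon hsz
      have e2 : l < 2 ^ 2 ^ JJ δ X := by exact_mod_cast e1
      by_cases hlH : HH X < l
      · apply rg_one.1 (hrg u hu) l _ hd
        unfold P1
        rw [mem_filter, mem_range]
        exact ⟨e2, hl, hlH⟩
      · push Not at hlH
        have e3 : l ∣ Wm X := by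
          unfold Wm
          exact hl.dvd_primorial_iff.2 hlH
        have e4 : n ≡ b [MOD l] := by
          have : b ≡ n [MOD l] := by
            rw [← hn3]
            exact (Nat.mod_modEq _ _).of_dvd e3
          exact this.symm
        have e5 : l ∣ b + u := ((e4.add_right u).dvd_iff dvd_rfl).1 hd
        have e6 := Nat.dvd_gcd e5 e3
        have e7 := hb2 u hu
        rw [Nat.coprime_iff_gcd_eq_one] at e7
        rw [e7] at e6
        exact hl.one_lt.ne' (Nat.dvd_one.1 e6)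
    · obtain ⟨G, hG⟩ : ∃ G, G = (univ : Finset (Fin T)).filter
        (fun g => ∃ i, (n + Hq S T K 0 g i).Prime) := ⟨_, rfl⟩
      have hG2 : m ≤ G.card := by
        have : T ≤ 4 * G.card := by
          rw [hG]
          convert hcnt
        omega
      have i0 : Fin K := ⟨0, by omega⟩
      have hex : ∀ g : Fin T, ∃ i : Fin K, g ∈ G → (n + Hq S T K 0 g i).Prime := by
        intro g
        by_cases hg : g ∈ G
        · have e1 := hg
          rw [hG, mem_filter] at e1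
          obtain ⟨i, hi⟩ := e1.2
          exact ⟨i, fun _ => hi⟩
        · exact ⟨i0, fun h => absurd h hg⟩
      choose j hj using hex
      have hmemU : ∀ g i, Hq S T K 0 g i ∈ U := fun g i => by
        rw [hU]
        exact Hq_mem S T K 0 g i
      have hsub : G.image (fun g => Hq S T K 0 g (j g)) ⊆
          (Icc 1 A0).filter (fun w => (n + w).Prime) := by
        intro w hw
        rw [mem_image] at hw
        obtain ⟨g, hg, rfl⟩ := hw
        rw [mem_filter, mem_Icc]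
        exact ⟨⟨hU1 _ (hmemU g (j g)), hUA _ (hmemU g (j g))⟩, hj g hg⟩
      have hcard : (G.image (fun g => Hq S T K 0 g (j g))).card = G.card := by
        apply card_image_of_injOn
        intro g _ g' _ h
        have e2 := @Hq_inj S T K 0 (g, j g) (g', j g') h
        exact (Prod.ext_iff.1 e2).1
      calc m ≤ G.card := hG2
        _ = _ := hcard.symm
        _ ≤ _ := card_le_card hsub
    · intro w hw hp a ha
      by_cases hwU : w ∈ U
      · obtain ⟨g, i, hgi⟩ := honly w hwU hp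
        rw [← hgi]
        refine ⟨Hqa_pos S T K 0 g i a ha, ?_⟩
        rw [hU]
        exact Hqa_mem S T K 0 g i a ha
      · exfalso
        have hwV : w ∈ Vs := by
          rw [hVs, Finset.mem_sdiff]
          exact ⟨hw, hwU⟩
        have hle := hpZ w hwV
        have hpw := pvs_prime A0 w
        have hW2 : pvs A0 w ∣ Wm X := by
          unfold Wm
          exact hpw.dvd_primorial_iff.2 (by omega)
        have e5 : n ≡ b [MOD pvs A0 w] := by
          rw [← hn3]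
          exact ((Nat.mod_modEq _ _).of_dvd hW2).symm
        have e6 : pvs A0 w ∣ n + w := ((e5.add_right w).dvd_iff dvd_rfl).2 (hb4 w hwV)
        have e7 := (Nat.prime_dvd_prime_iff_eq hpw hp).1 e6
        omega

end Pool.Agent.H961BE
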